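import Mathlib

open scoped commutatorElement PowerSeries.WithPiTopology MatrixGroups

namespace Pool.Agent.Results.MP_d2e4ca_al.Full

abbrev F := QuadraticAlgebra (ZMod 2) 1 1
instance : Fintype F := Fintype.ofEquiv _ (QuadraticAlgebra.equivProd (1 : ZMod 2) 1).symm
instance : TopologicalSpace F := ⊥
instance : DiscreteTopology F := ⟨rfl⟩
instance : NoZeroDivisors F := ⟨by
  rintro ⟨a, b⟩ ⟨c, d⟩
  revert a b c d
  decide⟩
instance : IsDomain F := NoZeroDivisors.to_isDomain F

abbrev R := PowerSeries F
instance : CompactSpace R := inferInstanceAs (CompactSpace ((Unit →₀ ℕ) → F))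
instance : TotallyDisconnectedSpace R :=
  inferInstanceAs (TotallyDisconnectedSpace ((Unit →₀ ℕ) → F))
instance : T2Space R := inferInstanceAs (T2Space ((Unit →₀ ℕ) → F))

lemma two : (2 : R) = 0 := by
  have : (2 : F) = 0 := by decide
  rw [← map_ofNat (PowerSeries.C : F →+* R) 2, this, map_zero]

abbrev G := SL(2, R)

instance : CompactSpace G := by
  have : IsClosed {A : Matrix (Fin 2) (Fin 2) R | A.det = 1} :=
    isClosed_eq (continuous_id.matrix_det) continuous_const
  have h : CompactSpace (Matrix (Fin 2) (Fin 2) R) :=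
    inferInstanceAs (CompactSpace (Fin 2 → Fin 2 → R))
  exact isCompact_iff_compactSpace.1 this.isCompact
instance : T2Space G := inferInstanceAs (T2Space {A : Fin 2 → Fin 2 → R // Matrix.det A = 1})
instance : TotallyDisconnectedSpace G :=
  inferInstanceAs (TotallyDisconnectedSpace {A : Fin 2 → Fin 2 → R // Matrix.det A = 1})

lemma comm_iff (u v : G) : u * v = v * u ↔ u 0 1 * v 1 0 = v 0 1 * u 1 0 ∧
    u 0 1 * (v 0 0 - v 1 1) = v 0 1 * (u 0 0 - u 1 1) ∧
    u 1 0 * (v 0 0 - v 1 1) = v 1 0 * (u 0 0 - u 1 1) := by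
  constructor
  · intro h
    have e := fun i j => congrArg (fun w : G => w i j) h
    have e1 := e 0 0
    have e2 := e 0 1
    have e3 := e 1 0
    simp only [Matrix.SpecialLinearGroup.coe_mul, Matrix.mul_apply, Fin.sum_univ_two] at e1 e2 e3
    exact ⟨by linear_combination e1, by linear_combination -e2, by linear_combination e3⟩
  · rintro ⟨h1, h2, h3⟩
    ext i j : 1
    fin_cases i <;> fin_cases j <;>
      simp only [Matrix.SpecialLinearGroup.coe_mul, Matrix.mul_apply, Fin.sum_univ_two,
        Fin.zero_eta, Fin.mk_one, Fin.isValue]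
    · linear_combination h1
    · linear_combination -h2
    · linear_combination h3
    · linear_combination -h1

lemma ca (g : G) (hg : g ≠ 1) (u v : G) (hu : g * u = u * g) (hv : g * v = v * g) :
    u * v = v * u := by
  obtain ⟨u1, u2, u3⟩ := (comm_iff _ _).1 hu
  obtain ⟨v1, v2, v3⟩ := (comm_iff _ _).1 hv
  rw [comm_iff]
  generalize u 0 0 - u 1 1 = ud at *
  generalize v 0 0 - v 1 1 = vd at *
  by_cases hb : g 0 1 = 0
  · by_cases hc : g 1 0 = 0
    · have hd : g 0 0 - g 1 1 ≠ 0 := by
        intro hd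
        apply hg
        have h1 := g.det_coe
        rw [Matrix.det_fin_two] at h1
        have h2 : (g 0 0 - 1) ^ 2 = 0 := by
          linear_combination h1 + g 1 0 * hb + g 0 0 * hd + (1 - g 0 0) * two
        have h3 := sub_eq_zero.1 (pow_eq_zero_iff (two_ne_zero) |>.1 h2)
        ext i j : 1
        fin_cases i <;> fin_cases j
        · exact h3
        · exact hb
        · exact hc
        · exact (sub_eq_zero.1 hd).symm.trans h3
      exact ⟨mul_left_cancel₀ hd (by
          linear_combination u 1 0 * v2 - v 1 0 * u2 + (v 1 0 * ud - u 1 0 * vd) * hb),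
        mul_left_cancel₀ hd (by linear_combination ud * v2 - vd * u2),
        mul_left_cancel₀ hd (by linear_combination ud * v3 - vd * u3)⟩
    · exact ⟨mul_left_cancel₀ hc (by linear_combination u 1 0 * v1 - v 1 0 * u1),
        mul_left_cancel₀ hc (by
          linear_combination ud * v1 - vd * u1 + (vd * u 1 0 - ud * v 1 0) * hb),
        mul_left_cancel₀ hc (by linear_combination u 1 0 * v3 - v 1 0 * u3)⟩
  · exact ⟨mul_left_cancel₀ hb (by linear_combination u 0 1 * v1 - v 0 1 * u1),
      mul_left_cancel₀ hb (by linear_combination u 0 1 * v2 - v 0 1 * u2),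
      mul_left_cancel₀ hb (by linear_combination u 1 0 * v2 - v 0 1 * u3 - ud * v1)⟩

def x : SL(2, F) := ⟨!![⟨0, 0⟩, ⟨1, 0⟩; ⟨1, 0⟩, ⟨1, 0⟩], by decide⟩
def g1 : SL(2, F) := ⟨!![⟨0, 0⟩, ⟨0, 1⟩; ⟨1, 1⟩, ⟨0, 1⟩], by decide⟩
def g2 : SL(2, F) := ⟨!![⟨0, 0⟩, ⟨0, 1⟩; ⟨1, 1⟩, ⟨0, 0⟩], by decide⟩
lemma key : x = ⁅g1 * x * g1⁻¹, g2 * x * g2⁻¹⁆ := by decide +kernel
lemma xne : x ≠ 1 := by decide

noncomputable def π : G →* SL(2, F) :=
  Matrix.SpecialLinearGroup.map (PowerSeries.constantCoeff : R →+* F)

lemma π_surj : Function.Surjective π := by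
  intro A
  refine ⟨Matrix.SpecialLinearGroup.map (PowerSeries.C : F →+* R) A, ?_⟩
  ext i j : 1
  simp [π]

theorem result : ∃ (G : Type) (_ : Group G) (_ : TopologicalSpace G), IsTopologicalGroup G ∧
    CompactSpace G ∧ T2Space G ∧ TotallyDisconnectedSpace G ∧ Infinite G ∧
    (∀ g : G, g ≠ 1 → ∀ u ∈ Subgroup.centralizer {g}, ∀ v ∈ Subgroup.centralizer {g},
      u * v = v * u) ∧
    ∃ (U : Subgroup G) (_ : U.Normal), IsOpen (U : Set G) ∧ ¬ Group.IsSolvable (G ⧸ U) := by
  refine ⟨G, inferInstance, inferInstance, inferInstance, inferInstance, inferInstance,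
    inferInstance, ?_, fun g hg u hu v hv => ca g hg u v (hu g rfl) (hv g rfl), π.ker,
    inferInstance, ?_, fun h => ?_⟩
  · refine Infinite.of_injective (fun n : ℕ => (⟨!![1, PowerSeries.X ^ n; 0, 1], by
      simp [Matrix.det_fin_two]⟩ : G)) fun m n h => ?_
    have := congrArg (fun w : G => PowerSeries.coeff m (w 0 1)) h
    by_contra hne
    simp [PowerSeries.coeff_X_pow, hne] at this
  · have e : (π.ker : Set G) = ⋂ i, ⋂ j, (fun w : G => PowerSeries.constantCoeff (w i j)) ⁻¹'
        {(1 : SL(2, F)) i j} := by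
      ext w
      simp only [SetLike.mem_coe, MonoidHom.mem_ker, Set.mem_iInter, Set.mem_preimage,
        Set.mem_singleton_iff]
      exact ⟨fun h i j => congrArg (fun z : SL(2, F) => z i j) h,
        fun h => Matrix.SpecialLinearGroup.ext _ _ h⟩
    rw [e]
    refine isOpen_iInter_of_finite fun i => isOpen_iInter_of_finite fun j =>
      (isOpen_discrete _).preimage ?_
    exact (PowerSeries.WithPiTopology.continuous_constantCoeff F).comp
      ((continuous_subtype_val (p := fun A : Matrix (Fin 2) (Fin 2) R => A.det = 1)).matrix_elem i j)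
  · have e := QuotientGroup.quotientKerEquivOfSurjective π π_surj
    have := h
    have : Group.IsSolvable SL(2, F) :=
      Group.isSolvable_of_surjective (f := e.toMonoidHom) e.surjective
    refine not_isSolvable_of_mem_derivedSeries xne (fun n => ?_) this
    induction n with
    | zero => exact Subgroup.mem_top _
    | succ n ih =>
      rw [key, derivedSeries_succ]
      exact Subgroup.commutator_mem_commutator ((derivedSeries_normal _ _).conj_mem _ ih g1)
        ((derivedSeries_normal _ _).conj_mem _ ih g2)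

end Pool.Agent.Results.MP_d2e4ca_al.Full
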